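import Mathlib

set_option autoImplicit false

namespace Pool.Agent.Results.MP_180bcc_co.No

variable {V : Type}

/-- `w` lies in the closed neighbourhood `N[v]`. -/
def N (G : SimpleGraph V) (v w : V) : Prop := v = w ∨ G.Adj v w

def Dominating (G : SimpleGraph V) (D : Finset V) : Prop := ∀ w, ∃ d ∈ D, N G d w

def Irredundant (G : SimpleGraph V) (S : Finset V) : Prop :=
  ∀ v ∈ S, ∃ w, N G v w ∧ ∀ u ∈ S, u ≠ v → ¬ N G u w

/-- Domination number. -/
noncomputable def gamma (G : SimpleGraph V) : ℕ := sInf {m | ∃ D, Dominating G D ∧ D.card = m}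

/-- Lower irredundance number. -/
noncomputable def ir (G : SimpleGraph V) : ℕ :=
  sInf {m | ∃ S, Irredundant G S ∧ (∀ S', S ⊂ S' → ¬ Irredundant G S') ∧ S.card = m}

def R (u v : ℕ) : Prop :=
  (u % 7 ≤ 1 ∧ u = v + 1) ∨ (u % 7 = 6 ∧ u = v + 5) ∨ (2 ≤ u % 7 ∧ u % 7 ≤ 5 ∧ u = v + 2)

def T (n : ℕ) : SimpleGraph (Fin n) where
  Adj u v := R u v ∨ R v u
  symm := ⟨fun _ _ h => h.symm⟩
  loopless := ⟨fun _ h => by unfold R at h; omega⟩

lemma NT {n : ℕ} (u v : Fin n) : N (T n) u v ↔ (u : ℕ) = v ∨ R u v ∨ R v u := by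
  simp only [N, T, Fin.ext_iff]

def par {n : ℕ} (v : Fin n) : Fin n :=
  ⟨v - if (v : ℕ) % 7 ≤ 1 then 1 else if (v : ℕ) % 7 = 6 then 5 else 2, by omega⟩

lemma tree (n : ℕ) : (T (n + 1)).IsTree := by
  classical
  have hc : (T (n + 1)).Connected := by
    have : ∀ m (h : m < n + 1), (T (n + 1)).Reachable ⟨m, h⟩ 0 := by
      intro m
      induction m using Nat.strong_induction_on with | _ m ih
      intro h
      rcases Nat.eq_zero_or_pos m with rfl | hm
      · rfl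
      · have a : R m (par ⟨m, h⟩ : Fin (n + 1)) := by
          simp only [R, par]; split_ifs <;> omega
        have b : ((par ⟨m, h⟩ : Fin (n + 1)) : ℕ) < m := by
          generalize ((par ⟨m, h⟩ : Fin (n + 1)) : ℕ) = z at a
          unfold R at a; omega
        exact (SimpleGraph.Adj.reachable (v := par ⟨m, h⟩) (Or.inl a)).trans (ih _ b _)
    exact ⟨fun u v => (this u u.2).trans (this v v.2).symm⟩
  rw [SimpleGraph.isTree_iff_connected_and_card]
  refine ⟨hc, le_antisymm ?_ hc.card_vert_le_card_edgeSet_add_one⟩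
  have : (T (n + 1)).edgeSet ⊆ Set.range fun i : Fin n => s(i.succ, par i.succ) := by
    have k : ∀ u v : Fin (n + 1), R u v → ∃ i : Fin n, i.succ = u ∧ par i.succ = v := by
      intro u v h
      obtain ⟨i, rfl⟩ := Fin.exists_succ_eq.2 (show u ≠ 0 by
        rintro rfl; simp [R] at h)
      refine ⟨i, rfl, Fin.ext ?_⟩
      simp only [R, par] at h ⊢; split_ifs <;> omega
    intro e he
    induction e using Sym2.ind with | _ u v
    rcases he with h | h
    · obtain ⟨i, h1, h2⟩ := k _ _ h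
      exact ⟨i, by simp only [h2]; rw [h1]⟩
    · obtain ⟨i, h1, h2⟩ := k _ _ h
      exact ⟨i, by simp only [h2]; rw [h1, Sym2.eq_swap]⟩
  have h1 := Nat.card_mono (Set.toFinite _) this
  have h2 := Finite.card_range_le fun i : Fin n => s(i.succ, par i.succ)
  simp only [Nat.card_eq_fintype_card, Fintype.card_fin] at h1 h2 ⊢
  omega

lemma L1 {x w : ℕ} (c : x % 7 = 6) (h : x = w ∨ R x w ∨ R w x)
    (a : ¬ (x + 1 = w ∨ R (x + 1) w ∨ R w (x + 1)))
    (b : ¬ (x - 5 = w ∨ R (x - 5) w ∨ R w (x - 5))) : False := by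
  have : w = x ∨ w = x + 1 ∨ w = x - 5 := by unfold R at h; omega
  rcases this with rfl | rfl | rfl
  · exact a (by unfold R; omega)
  · exact a (Or.inl rfl)
  · exact b (Or.inl rfl)

lemma L2 {x w : ℕ} (c : ¬ x % 7 = 6) (d : ¬ x % 7 ≤ 1)
    (h : x / 7 * 7 + x % 7 % 2 = w ∨ R (x / 7 * 7 + x % 7 % 2) w ∨ R w (x / 7 * 7 + x % 7 % 2))
    (a : ¬ (x = w ∨ R x w ∨ R w x))
    (b : ¬ (x / 7 * 7 + (1 - x % 7 % 2) = w ∨ R (x / 7 * 7 + (1 - x % 7 % 2)) w ∨
      R w (x / 7 * 7 + (1 - x % 7 % 2)))) :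
    (w = x / 7 * 7 + 6 ∧ x % 7 % 2 = 1) ∨ (w + 1 = x / 7 * 7 ∧ x % 7 % 2 = 0) := by
  obtain ⟨q, r, hr, rfl⟩ : ∃ q r, r < 7 ∧ x = 7 * q + r := ⟨x / 7, x % 7, by omega, by omega⟩
  have e1 : (7 * q + r) / 7 = q := by omega
  have e2 : (7 * q + r) % 7 = r := by omega
  rw [e1, e2] at h b
  rw [e2] at c d
  rw [e1, e2]
  clear e1 e2
  have : w = q * 7 ∨ w = q * 7 + 1 ∨ w = q * 7 + r % 2 + 2 ∨ (w = q * 7 + 6 ∧ r % 2 = 1) ∨
      (w + 1 = q * 7 ∧ r % 2 = 0) := by
    clear a b; unfold R at h; omega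
  rcases this with rfl | rfl | rfl | h | h
  · exact (b (by clear a b h; unfold R; omega)).elim
  · exact (b (by clear a b h; unfold R; omega)).elim
  · exact (a (by clear a b h; unfold R; omega)).elim
  · exact Or.inl h
  · exact Or.inr h

lemma L3 {i j w : ℕ} (a : w = i / 3 * 7 + 4 + i % 3 ∨ R w (i / 3 * 7 + 4 + i % 3) ∨
      R (i / 3 * 7 + 4 + i % 3) w)
    (b : w = j / 3 * 7 + 4 + j % 3 ∨ R w (j / 3 * 7 + 4 + j % 3) ∨
      R (j / 3 * 7 + 4 + j % 3) w) : i = j := by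
  have k : ∀ i, (w = i / 3 * 7 + 4 + i % 3 ∨ R w (i / 3 * 7 + 4 + i % 3) ∨
      R (i / 3 * 7 + 4 + i % 3) w) → i + 1 = w / 7 * 3 +
        if w % 7 = 0 then 0 else if w % 7 = 1 ∨ w % 7 = 6 then 3 else w % 7 % 2 + 1 := by
    intro i h
    unfold R at h
    split_ifs <;> omega
  have := k i a
  have := k j b
  omega

theorem result (k : ℕ) (hk : 1 ≤ k) : ∃ (n : ℕ) (G : SimpleGraph (Fin n)),
    G.IsTree ∧ 0 < ir G ∧ ir G ≤ 2 * k ∧ 3 * k ≤ gamma G + 1 := by
  classical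
  obtain ⟨n, hn⟩ : ∃ n, n + 2 = 7 * k := ⟨7 * k - 2, by omega⟩
  let S : Finset (Fin (n + 1)) := Finset.univ.filter fun v => (v : ℕ) % 7 ≤ 1
  have hS : ∀ v, v ∈ S ↔ (v : ℕ) % 7 ≤ 1 := by simp [S]
  have mem : S.card ∈ {m | ∃ S, Irredundant (T (n + 1)) S ∧
      (∀ S', S ⊂ S' → ¬ Irredundant (T (n + 1)) S') ∧ S.card = m} := by
    refine ⟨S, fun v hv => ?_, fun S' hs h => ?_, rfl⟩
    · rw [hS] at hv
      have := v.2
      refine ⟨⟨v + 2, by omega⟩, ?_, fun u hu e => ?_⟩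
      · exact (NT _ _).2 (Or.inr (Or.inr (show R (v + 2) v by unfold R; omega)))
      · rw [hS] at hu
        simp only [NT, R, Ne, Fin.ext_iff] at e ⊢; omega
    · obtain ⟨x, x1, x2⟩ := Finset.exists_of_ssubset hs
      rw [hS] at x2
      have key : ∀ v ∈ S', ∃ w : ℕ, w < n + 1 ∧ ((v : ℕ) = w ∨ R v w ∨ R w v) ∧
          ((x : ℕ) ≠ v → ¬ ((x : ℕ) = w ∨ R x w ∨ R w x)) ∧
          ∀ u, u < n + 1 → u % 7 ≤ 1 → u ≠ v → ¬ (u = w ∨ R u w ∨ R w u) := by
        intro v hv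
        obtain ⟨w, w1, w2⟩ := h v hv
        refine ⟨w, w.2, (NT _ _).1 w1, fun e c => w2 x x1 (fun z => e (z ▸ rfl)) ((NT _ _).2 c),
          fun u u1 u2 e c => w2 ⟨u, u1⟩ (hs.1 ((hS _).2 u2)) (fun z => e (z ▸ rfl))
            ((NT _ _).2 c)⟩
      have hx := x.2
      by_cases c : (x : ℕ) % 7 = 6
      · obtain ⟨w, w0, w1, -, w3⟩ := key x x1
        exact L1 c w1 (w3 (x + 1) (by omega) (by omega) (by omega))
          (w3 (x - 5) (by omega) (by omega) (by omega))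
      · obtain ⟨w, w0, w1, w2, w3⟩ := key ⟨x / 7 * 7 + x % 7 % 2, by omega⟩
          (hs.1 ((hS _).2 (by simp only; omega)))
        simp only at w1 w2 w3
        have a := w3 (x / 7 * 7 + (1 - x % 7 % 2)) (by omega) (by omega) (by omega)
        rcases L2 c x2 w1 (w2 (by omega)) a with ⟨e, f⟩ | ⟨e, f⟩
        · exact w3 (w + 1) (by omega) (by omega) (by omega) (by unfold R; omega)
        · exact w3 (w - 5) (by omega) (by omega) (by omega) (by unfold R; omega)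
  refine ⟨n + 1, T (n + 1), tree n, Nat.pos_of_ne_zero fun e => ?_, (Nat.sInf_le mem).trans ?_, ?_⟩
  · obtain ⟨S0, -, h2, h3⟩ := Nat.sInf_mem ⟨_, mem⟩
    obtain rfl : S0 = ∅ := Finset.card_eq_zero.1 (h3.trans e)
    exact h2 {0} (by simp) fun v _ => ⟨v, Or.inl rfl, by simp_all⟩
  · rw [← Finset.card_range (2 * k)]
    refine Finset.card_le_card_of_injOn (fun v => v / 7 * 2 + v % 7) (fun v hv => ?_)
      fun u hu v hv e => Fin.ext ?_
    · have := (hS v).1 hv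
      have := v.2
      simp only [Finset.coe_range, Set.mem_Iio]; omega
    · have := (hS v).1 hv
      have := (hS u).1 hu
      simp only at e; omega
  · obtain ⟨D, h1, h2⟩ := Nat.sInf_mem (s := {m | ∃ D, Dominating (T (n + 1)) D ∧ D.card = m})
      ⟨_, Finset.univ, fun w => ⟨w, by simp, Or.inl rfl⟩, rfl⟩
    choose d d1 d2 using h1
    have : Fintype.card (Fin (3 * k - 1)) ≤ D.card := by
      refine Finset.card_le_card_of_injOn
        (fun j => d ⟨j / 3 * 7 + 4 + j % 3, by omega⟩) (fun j _ => d1 _) fun i _ j _ e => Fin.ext ?_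
      have a := d2 ⟨i / 3 * 7 + 4 + i % 3, by omega⟩
      have b := d2 ⟨j / 3 * 7 + 4 + j % 3, by omega⟩
      simp only at e
      rw [e] at a
      exact L3 ((NT _ _).1 a) ((NT _ _).1 b)
    rw [Fintype.card_fin] at this
    unfold gamma; omega

end Pool.Agent.Results.MP_180bcc_co.No
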